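import Pool.Agent.H466.HP.Stm3
import Pool.Agent.H466.HP.Asm

/-!
# The anchor with a power saving (helper264, for helper466)
-/

set_option autoImplicit false

namespace Pool.Agent.H264.HP

open Complex MeasureTheory Set Filter Topology Metric
open Pool.Agent.H862.VK (Yz)
open Pool.Agent.H466.HP Pool.Agent.K7.H52.SP
open Pool.Agent.H980.HP (few zld_small P_near)

/-- windows with small values of zeta, some power saving -/
def S_GWP' : Prop :=
  ∀ R η : ℝ, 0 < R → 0 < η → ∃ c T0 : ℝ, 0 < c ∧ 10 ≤ T0 ∧ ∀ T : ℝ, T0 ≤ T →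
    volume {t : ℝ | t ∈ Icc T (2 * T) ∧
      ∃ y : ℝ, |y - t| ≤ R ∧ T ^ η < ‖riemannZeta (1 / 2 + I * y)‖} ≤
      ENNReal.ofReal (T ^ (1 - c))

theorem gwp'_of_gwp (h : S_GWP) : S_GWP' := by
  intro R η hR hη
  obtain ⟨T0, hT0, h⟩ := h R η hR hη
  exact ⟨η, T0, hη, hT0, h⟩

/-- few points see a zero far from the line, with a power saving -/
lemma few_pointsP (h : S_EXPW) {x R : ℝ} (hx : 0 < x) (hR : 0 < R) :
    ∃ T0 : ℝ, 10 ≤ T0 ∧ ∀ T : ℝ, T0 ≤ T →
      volume {t : ℝ | t ∈ Icc T (2 * T) ∧ ∃ b : ℂ, Yz b = 0 ∧ x ≤ b.re ∧ |b.im - t| ≤ R} ≤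
        ENNReal.ofReal (T * Real.exp (-(x / 8 * Real.log T)) / 2) := by
  obtain ⟨C, T0, hC, hT0, h⟩ := few h hx
  obtain ⟨T1, hT1, hab⟩ := absorb_log (4 * R * C) 1 (show 0 < x / 8 by positivity)
  refine ⟨T0 + T1 + 2 * R, by linarith, fun T hT => ?_⟩
  have hT0' : 0 < T := by linarith
  obtain ⟨B, hB1, hB2⟩ := h T (by linarith)
  have hsub : {t : ℝ | t ∈ Icc T (2 * T) ∧ ∃ b : ℂ, Yz b = 0 ∧ x ≤ b.re ∧ |b.im - t| ≤ R} ⊆
      ⋃ b ∈ B, Icc (b.im - R) (b.im + R) := by
    rintro t ⟨⟨h1, h2⟩, b, hb, hbx, hbt⟩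
    have h3 := abs_le.mp hbt
    have h4 : 0 < b.im := by linarith
    rw [mem_iUnion₂]
    refine ⟨b, hB1 b hb hbx ?_ ?_, ?_⟩
    · rw [abs_of_pos h4]; linarith
    · rw [abs_of_pos h4]; linarith
    · constructor <;> linarith
  refine (measure_mono hsub).trans ?_
  refine (measure_biUnion_finset_le B _).trans ?_
  have e : ∀ b ∈ B, volume (Icc (b.im - R) (b.im + R)) = ENNReal.ofReal (2 * R) := by
    intro b _
    rw [Real.volume_Icc]
    congr 1
    ring
  rw [Finset.sum_congr rfl e, Finset.sum_const, nsmul_eq_mul, ← ENNReal.ofReal_natCast,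
    ← ENNReal.ofReal_mul (by positivity)]
  apply ENNReal.ofReal_le_ofReal
  have h5 := hab T (by linarith)
  rw [pow_one] at h5
  have e2 : Real.exp (-(Real.log T / 4 * x)) * Real.exp (x / 8 * Real.log T) =
      Real.exp (-(x / 8 * Real.log T)) := by
    rw [← Real.exp_add]
    congr 1
    ring
  calc (B.card : ℝ) * (2 * R) ≤ C * T * Real.log T * Real.exp (-(Real.log T / 4 * x)) * (2 * R) := by
        gcongr
    _ = T * Real.exp (-(Real.log T / 4 * x)) * (4 * R * C * Real.log T) / 2 := by ring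
    _ ≤ T * Real.exp (-(Real.log T / 4 * x)) * Real.exp (x / 8 * Real.log T) / 2 := by gcongr
    _ = T * (Real.exp (-(Real.log T / 4 * x)) * Real.exp (x / 8 * Real.log T)) / 2 := by ring
    _ = T * Real.exp (-(x / 8 * Real.log T)) / 2 := by rw [e2]

theorem ancp_of (h : S_GWP') (h2 : S_EXPW) : S_ANCP := by
  intro x1 κ R hx1 hκ hR
  -- reduce to `x ≤ 1 / 2`
  set x : ℝ := min x1 (1 / 2) with hx
  have hx0 : 0 < x := lt_min hx1 (by norm_num)
  have hxx1 : x ≤ x1 := min_le_left _ _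
  have hxh : x ≤ 1 / 2 := min_le_right _ _
  obtain ⟨η, R', T1, hη, hR', hT1, hloc⟩ := zld_small hx0 hxh (κ := κ / 4) (by positivity) hR
  obtain ⟨C, hC0, hC⟩ := P_near
  obtain ⟨T2, hT2, hf⟩ := few_pointsP h2 (x := x / 4) (R := R + 8) (by positivity) (by positivity)
  obtain ⟨c0, T3, hc0, hT3, hg⟩ := h R' η hR' hη
  set X : ℝ := 4 * C / κ + 1 with hX
  have hX0 : 0 ≤ X := by positivity
  set c : ℝ := min (x / 4 / 8) (c0 / 2) with hc
  have hcpos : 0 < c := lt_min (by positivity) (by positivity)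
  have hcx : c ≤ x / 4 / 8 := min_le_left _ _
  have hcc : c ≤ c0 / 2 := min_le_right _ _
  refine ⟨c, T1 + T2 + T3 + 2 * R + Real.exp X + Real.exp (2 / c0), hcpos, by
    have := Real.exp_pos X
    have := Real.exp_pos (2 / c0)
    linarith, fun T hT => ?_⟩
  have he := Real.exp_pos X
  have he' := Real.exp_pos (2 / c0)
  have hT0 : 0 < T := by linarith
  have hLX : X ≤ Real.log T := by
    rw [Real.le_log_iff_exp_le hT0]
    linarith
  have hLc : 2 / c0 ≤ Real.log T := by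
    rw [Real.le_log_iff_exp_le hT0]
    linarith
  have hL1 : 1 ≤ Real.log T := by
    have : 0 ≤ 4 * C / κ := by positivity
    linarith
  have hsub : {t : ℝ | t ∈ Icc T (2 * T) ∧ ∃ z : ℂ, x1 ≤ z.re ∧ z.re ≤ 4 ∧ |z.im - t| ≤ R ∧
      κ * Real.log T < ‖P z - (Real.log T / 2 : ℝ)‖} ⊆
      {t : ℝ | t ∈ Icc T (2 * T) ∧ ∃ b : ℂ, Yz b = 0 ∧ x / 4 ≤ b.re ∧ |b.im - t| ≤ R + 8} ∪
      {t : ℝ | t ∈ Icc T (2 * T) ∧
        ∃ y : ℝ, |y - t| ≤ R' ∧ T ^ η < ‖riemannZeta (1 / 2 + I * y)‖} := by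
    rintro t ⟨ht, z, hz1, hz2, hz3, hz4⟩
    by_contra hcon
    rw [mem_union, not_or] at hcon
    obtain ⟨c1, c2⟩ := hcon
    have c1' : ∀ b : ℂ, Yz b = 0 → |b.im - t| ≤ R + 8 → b.re ≤ x / 4 := by
      intro b hb1 hb2
      by_contra h3
      push Not at h3
      exact c1 ⟨ht, b, hb1, h3.le, hb2⟩
    have c2' : ∀ y : ℝ, |y - t| ≤ R' → ‖riemannZeta (1 / 2 + I * y)‖ ≤ T ^ η := by
      intro y hy
      by_contra h3
      push Not at h3
      exact c2 ⟨ht, y, hy, h3⟩
    have ht0 : 0 < t := by linarith [ht.1]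
    obtain ⟨a1, a2⟩ := hloc t (by linarith [ht.1]) (fun y hy => (c2' y hy).trans (by
      rw [exp_mul_log ht0]
      exact Real.rpow_le_rpow hT0.le ht.1 hη.le)) c1' z (by linarith) hz2 hz3
    have hz3' := abs_le.mp hz3
    have a3 := hC T z (by linarith) (by linarith) hz2 (by linarith [ht.1]) (by linarith [ht.2]) a1
    have a4 : Real.log t ≤ 2 * Real.log T := by
      have l2 : Real.log 2 ≤ 1 := by
        have := Real.log_le_sub_one_of_pos (show (0 : ℝ) < 2 by norm_num)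
        linarith
      have := Real.log_le_log ht0 ht.2
      rw [Real.log_mul (by norm_num) (by linarith)] at this
      linarith
    have a5 : κ / 4 * Real.log t ≤ κ / 2 * Real.log T := by nlinarith
    have a6 : C ≤ κ / 4 * Real.log T := by
      have h5 : 4 * C / κ ≤ Real.log T := by linarith
      rw [div_le_iff₀ hκ] at h5
      linarith
    have a7 : 0 < κ * Real.log T := by positivity
    linarith
  refine (measure_mono hsub).trans ((measure_union_le _ _).trans ?_)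
  refine (add_le_add (hf T (by linarith)) (hg T (by linarith))).trans ?_
  have hTe : T = Real.exp (Real.log T) := (Real.exp_log hT0).symm
  have hp : ∀ s : ℝ, T ^ s = Real.exp (Real.log T * s) := fun s => Real.rpow_def_of_pos hT0 s
  rw [← ENNReal.ofReal_add (by positivity) (by positivity)]
  apply ENNReal.ofReal_le_ofReal
  have b1 : T * Real.exp (-(x / 4 / 8 * Real.log T)) ≤ T ^ (1 - c) := by
    rw [hp]
    conv_lhs => rw [hTe]
    rw [Real.log_exp, ← Real.exp_add]
    apply Real.exp_le_exp.mpr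
    nlinarith
  have b2 : 2 * T ^ (1 - c0) ≤ T ^ (1 - c) := by
    rw [hp, hp]
    have b3 : (2 : ℝ) ≤ Real.exp 1 := by
      have := Real.add_one_le_exp (1 : ℝ)
      linarith
    calc 2 * Real.exp (Real.log T * (1 - c0)) ≤ Real.exp 1 * Real.exp (Real.log T * (1 - c0)) := by
          gcongr
      _ = Real.exp (1 + Real.log T * (1 - c0)) := by rw [Real.exp_add]
      _ ≤ Real.exp (Real.log T * (1 - c)) := by
          apply Real.exp_le_exp.mpr
          rw [div_le_iff₀ hc0] at hLc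
          nlinarith
  linarith

/-- **the anchor with a power saving** -/
theorem ancp' (h : S_GWP') : S_ANCP := ancp_of h expw

theorem ancp (h : S_GWP) : S_ANCP := ancp' (gwp'_of_gwp h)

end Pool.Agent.H264.HP
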